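import Pool.Agent.Y668.XS.Main

/-!
# Exponential separation of randomized linear sketches and one-way communication

For functions `f` of `n` bits let `R^lin(f)` be the randomized `𝔽₂`-linear sketch complexity
(`Rlin`), and `R^→(f⁺)` the public-coin randomized one-way communication complexity of the XOR
function `f⁺(x, y) = f(x + y)` (`Rone (xorFn f)`).  Always `R^→(f⁺) ≤ R^lin(f) ≤ n`.

The starting result `NotPolyRelated` of this folder gives functions with `R^→(f⁺) ≤ n^ε` and
`R^lin(f) ≥ n^(1-ε)`, for infinitely many `n`.  Here the gap is exponential, for all large `n`: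

1. for every `ε > 0` there are `C` and functions `f_n` of `n` bits, one for every `n`, such that
   `R^→(f_n⁺) ≤ (log n)^C` and `R^lin(f_n) ≥ n^(1-ε)` for all large `n`;
2. there are functions `f_n` with `R^→(f_n⁺) ≤ 72 (log n)²` and `R^lin(f_n) ≥ n^(3/20)` for all
   large `n`; so `R^lin(f_n) / ((R^→(f_n⁺) + 1) (log n)^d)` tends to infinity for every `d`.

Proof.  Let `s + 1 = 2^a 3^b`.  In the starting library there is a function of `N + C(N, s)` bits
with `R^→(f⁺) ≤ N + 4 C(N, 3^b - 1)`, and `R^lin(f) ≥ C(N, s) / (3 C(N, 2^a - 1))`.  There `2^a` and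
`3^b` are fixed numbers of comparable size and `N` is large.  Here `b` is fixed, `a` tends to
infinity, and `N` is between `2 s` and `32 s`: the number of variables is exponential in `N`, the
protocol costs a power of `N`, and `C(N, 2^a - 1)` is a small power of the number of variables.
The other values of `n` are reached by changing `N`, and by variables on which the function does
not depend (for this the lower bound is proved for sketches with arbitrary randomness).
-/

set_option autoImplicit false

namespace Pool.Agent.Results.MP_b89832_lc.ExponentialSeparation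

open Pool.Agent.Helper12.SketchSep Filter

/-- **Theorem.** Linear sketches over `𝔽₂` may be exponentially more expensive than one-way
communication for XOR functions. -/
theorem result :
    (∀ ε : ℝ, 0 < ε → ∃ (C : ℕ) (f : (n : ℕ) → (Fin n → ZMod 2) → Bool), ∀ᶠ n : ℕ in atTop,
      (Rone (xorFn (f n)) : ℝ) ≤ Real.log n ^ C ∧ (n : ℝ) ^ (1 - ε) ≤ Rlin (f n)) ∧
    ∃ f : (n : ℕ) → (Fin n → ZMod 2) → Bool,
      (∀ᶠ n : ℕ in atTop, (Rone (xorFn (f n)) : ℝ) ≤ 72 * Real.log n ^ 2 ∧
        (n : ℝ) ^ (3 / 20 : ℝ) ≤ Rlin (f n)) ∧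
      ∀ d : ℕ, Tendsto (fun n : ℕ =>
        (Rlin (f n) : ℝ) / ((Rone (xorFn (f n)) + 1) * Real.log n ^ d)) atTop atTop := by
  refine ⟨fun ε hε => Pool.Agent.Y668.XS.T1 ε hε, ?_⟩
  obtain ⟨f, hf⟩ := Pool.Agent.Y668.XS.T2
  exact ⟨f, hf, fun d => Pool.Agent.Y668.XS.T3 f hf d⟩

end Pool.Agent.Results.MP_b89832_lc.ExponentialSeparation
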